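import Pool.Agent.N718.LB.Stm

/-!
# Project LB (helper718), part LAT: a short basis of the lattice orthogonal to a primitive vector
-/

set_option autoImplicit false

namespace Pool.Agent.N654.LB

open Finset
open Pool.Agent.N718.LB

lemma dt_self_pos {v : Fin 3 → ℤ} (h : v ≠ 0) : 0 < dt v v := by
  have h0 : 0 ≤ v 0 * v 0 := mul_self_nonneg _
  have h1 : 0 ≤ v 1 * v 1 := mul_self_nonneg _
  have h2 : 0 ≤ v 2 * v 2 := mul_self_nonneg _
  by_contra hcon
  unfold dt at hcon
  apply h
  funext i
  have e0 : v 0 = 0 := mul_self_eq_zero.1 (by omega)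
  have e1 : v 1 = 0 := mul_self_eq_zero.1 (by omega)
  have e2 : v 2 = 0 := mul_self_eq_zero.1 (by omega)
  fin_cases i
  · exact e0
  · exact e1
  · exact e2

theorem lat_ : S_LAT := by
  classical
  rintro a ⟨t0, ht0⟩
  have ha : a ≠ 0 := by
    rintro rfl
    simp [dt] at ht0
  -- nonzero orthogonal vectors
  have hex : ∃ n : ℕ, ∃ u : Fin 3 → ℤ, u ≠ 0 ∧ dt a u = 0 ∧ dt u u = (n : ℤ) := by
    have key : ∀ u : Fin 3 → ℤ, u ≠ 0 → dt a u = 0 →
        ∃ n : ℕ, ∃ u : Fin 3 → ℤ, u ≠ 0 ∧ dt a u = 0 ∧ dt u u = (n : ℤ) := by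
      intro u hu hau
      refine ⟨(dt u u).toNat, u, hu, hau, ?_⟩
      rw [Int.toNat_of_nonneg (dt_self_pos hu).le]
    by_cases h2 : a 2 = 0
    · refine key ![a 1, -a 0, 0] ?_ ?_
      · intro hcon
        have e0 := congrFun hcon 0
        have e1 := congrFun hcon 1
        simp at e0 e1
        apply ha
        funext i
        fin_cases i
        · exact e1
        · exact e0
        · exact h2
      · simp [dt]
        ring
    · refine key ![0, a 2, -a 1] ?_ ?_
      · intro hcon
        have e1 := congrFun hcon 1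
        simp at e1
        exact h2 e1
      · simp [dt]
        ring
  obtain ⟨v, hv, hav, hvn⟩ := Nat.find_spec hex
  have hmin : ∀ u : Fin 3 → ℤ, u ≠ 0 → dt a u = 0 → dt v v ≤ dt u u := by
    intro u hu hau
    rw [hvn]
    have h1 : Nat.find hex ≤ (dt u u).toNat := by
      apply Nat.find_min'
      refine ⟨u, hu, hau, ?_⟩
      rw [Int.toNat_of_nonneg (dt_self_pos hu).le]
    have h2 := dt_self_pos hu
    omega
  have hvpos := dt_self_pos hv
  -- Bezout
  obtain ⟨t, ht⟩ : ∃ t : Fin 3 → ℤ, dt v t = 1 := by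
    obtain ⟨d, hd⟩ := (IsPrincipalIdealRing.principal (Ideal.span ({v 0, v 1, v 2} : Set ℤ))).principal
    have hmem : ∀ i : Fin 3, d ∣ v i := by
      intro i
      rw [← Ideal.mem_span_singleton]
      have h1 : v i ∈ Ideal.span ({v 0, v 1, v 2} : Set ℤ) := by
        apply Ideal.subset_span
        fin_cases i <;> simp
      rw [hd] at h1
      exact h1
    have hdm : d ∈ Ideal.span ({v 0, v 1, v 2} : Set ℤ) := by
      rw [hd]
      exact Submodule.mem_span_singleton_self d
    rw [Ideal.mem_span_insert] at hdm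
    obtain ⟨x, z, hz, hxz⟩ := hdm
    rw [Ideal.mem_span_pair] at hz
    obtain ⟨y, y', hy⟩ := hz
    choose u hu using hmem
    have hd0 : d ≠ 0 := by
      rintro rfl
      apply hv
      funext i
      rw [hu i, zero_mul]
      rfl
    have hu0 : u ≠ 0 := by
      rintro rfl
      apply hv
      funext i
      rw [hu i]
      simp
    have hau : dt a u = 0 := by
      have h1 : d * dt a u = dt a v := by
        unfold dt
        rw [hu 0, hu 1, hu 2]
        ring
      rw [hav] at h1
      exact (mul_eq_zero.1 h1).resolve_left hd0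
    have h1 := hmin u hu0 hau
    have h2 : dt v v = d * d * dt u u := by
      unfold dt
      rw [hu 0, hu 1, hu 2]
      ring
    have h3 := dt_self_pos hu0
    have h4 : d * d ≤ 1 := by
      by_contra hcon
      have h5 : 2 ≤ d * d := by omega
      nlinarith
    have h5 : 0 < d * d := mul_self_pos.2 hd0
    have h6 : d * d = 1 := by omega
    refine ⟨![d * x, d * y, d * y'], ?_⟩
    have h7 : dt v ![d * x, d * y, d * y'] = d * (x * v 0 + (y * v 1 + y' * v 2)) := by
      simp [dt]
      ring
    rw [h7, hy, ← hxz, h6]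
  -- the second vector
  have hcr : ∀ k : ℤ, cr v (cr a t + k • v) = a := by
    intro k
    have h1 : v 0 * t 0 + v 1 * t 1 + v 2 * t 2 = 1 := ht
    have h2 : a 0 * v 0 + a 1 * v 1 + a 2 * v 2 = 0 := hav
    funext i
    fin_cases i
    · simp [cr]
      linear_combination (a 0) * h1 - (t 0) * h2
    · simp [cr]
      linear_combination (a 1) * h1 - (t 1) * h2
    · simp [cr]
      linear_combination (a 2) * h1 - (t 2) * h2
  obtain ⟨m, hm⟩ : ∃ m, m = dt v (cr a t) := ⟨_, rfl⟩
  obtain ⟨q, hq⟩ : ∃ q, q = (2 * m + dt v v) / (2 * dt v v) := ⟨_, rfl⟩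
  have hq1 : 2 * dt v v * q ≤ 2 * m + dt v v := by
    rw [hq]
    exact Int.mul_ediv_self_le (by omega)
  have hq2 : 2 * m + dt v v < 2 * dt v v * q + 2 * dt v v := by
    rw [hq]
    have := Int.lt_mul_ediv_self_add (x := 2 * m + dt v v) (k := 2 * dt v v) (by omega)
    exact this
  refine ⟨v, cr a t + (-q) • v, hcr _, hv, ?_, ?_⟩
  all_goals
    obtain ⟨w, hw⟩ : ∃ w, w = cr a t + (-q) • v := ⟨_, rfl⟩
    rw [← hw]
    have hcw : cr v w = a := by rw [hw]; exact hcr _
    have hw0 : w ≠ 0 := by
      rintro h0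
      apply ha
      rw [← hcw, h0]
      funext i
      fin_cases i <;> simp [cr]
    have haw : dt a w = 0 := by
      rw [← hcw]
      simp [dt, cr]
      ring
    have hvw := hmin w hw0 haw
  · exact hvw
  · have hd : dt v w = m - dt v v * q := by
      rw [hw, hm]
      simp [dt]
      ring
    have h1 : -(dt v v) ≤ 2 * dt v w := by
      rw [hd]
      linarith
    have h2 : 2 * dt v w ≤ dt v v := by
      rw [hd]
      linarith
    have h3 : (2 * dt v w) ^ 2 ≤ dt v v ^ 2 := sq_le_sq' h1 h2
    have h4 : dt v v ^ 2 ≤ dt v v * dt w w := by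
      rw [sq]
      exact mul_le_mul_of_nonneg_left hvw hvpos.le
    have h5 : dt a a = dt v v * dt w w - dt v w ^ 2 := by
      rw [← hcw]
      simp [dt, cr]
      ring
    rw [h5]
    nlinarith

end Pool.Agent.N654.LB
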